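import Pool.Agent.W91.BH.Stm2

set_option autoImplicit false

open MeasureTheory

namespace Pool.Agent.W904.BHO

open Pool.Agent.W91.BH

noncomputable section

theorem ctr_mem (n : ℕ) (Q : Idx n) : ctr n Q ∈ cube n Q := by
  intro i
  have h : (2 : ℝ) ^ Q.1 * (ctr n Q) i = (Q.2 i : ℝ) + 1 / 2 := by
    show (2 : ℝ) ^ Q.1 * (((Q.2 i : ℝ) + 1 / 2) / (2 : ℝ) ^ Q.1) = _
    field_simp
  rw [h, Int.floor_eq_iff]
  constructor <;> linarith

theorem dist_cube (n : ℕ) (P : Idx n) (x y : E n) (hx : x ∈ cube n P) (hy : y ∈ cube n P) :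
    dist x y ≤ n * (1 / 2 : ℝ) ^ P.1 := by
  have hc : ∀ i, |x i - y i| ≤ (1 / 2 : ℝ) ^ P.1 := by
    intro i
    have h1 := Int.floor_eq_iff.1 (hx i)
    have h2 := Int.floor_eq_iff.1 (hy i)
    have hp : (0 : ℝ) < (2 : ℝ) ^ P.1 := by positivity
    have h3 : |(2 : ℝ) ^ P.1 * (x i - y i)| ≤ 1 := by
      rw [abs_le]
      constructor <;> nlinarith [h1.1, h1.2, h2.1, h2.2]
    rw [abs_mul, abs_of_pos hp] at h3
    rw [one_div_pow, le_div_iff₀ hp]
    linarith
  rw [EuclideanSpace.dist_eq]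
  apply Real.sqrt_le_iff.2
  refine ⟨by positivity, ?_⟩
  calc ∑ i, dist (x i) (y i) ^ 2 ≤ ∑ i : Fin n, ((1 / 2 : ℝ) ^ P.1) ^ 2 := by
        apply Finset.sum_le_sum
        intro i _
        rw [Real.dist_eq]
        exact pow_le_pow_left₀ (abs_nonneg _) (hc i) 2
    _ = n * ((1 / 2 : ℝ) ^ P.1) ^ 2 := by simp
    _ ≤ (n : ℝ) ^ 2 * ((1 / 2 : ℝ) ^ P.1) ^ 2 := by
        apply mul_le_mul_of_nonneg_right _ (by positivity)
        rcases Nat.eq_zero_or_pos n with h | h
        · simp [h]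
        · have : (1 : ℝ) ≤ n := by exact_mod_cast h
          nlinarith
    _ = (n * (1 / 2 : ℝ) ^ P.1) ^ 2 := by ring

open Classical in
theorem count (n : ℕ) (G : Finset (Idx n)) (k : ℕ) (r : ℝ) (y : E n) (hk : ∀ Q ∈ G, Q.1 = k)
    (hd : ∀ Q ∈ G, dist y (ctr n Q) ≤ r) (hr : 1 ≤ (2 : ℝ) ^ k * r) :
    (G.card : ℝ) ≤ (3 * ((2 : ℝ) ^ k * r)) ^ n := by
  set R := (2 : ℝ) ^ k * r with hR
  let S : Finset (Fin n → ℤ) := Fintype.piFinset (fun i : Fin n =>
    Finset.Icc ⌈(2 : ℝ) ^ k * y i - 1 / 2 - R⌉ ⌊(2 : ℝ) ^ k * y i - 1 / 2 + R⌋)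
  have hmap : ∀ Q ∈ G, Q.2 ∈ S := by
    intro Q hQ
    rw [Fintype.mem_piFinset]
    intro i
    have h1 : |y i - (ctr n Q) i| ≤ r := by
      have := EuclideanSpace.dist_eq y (ctr n Q)
      have h2 : dist (y i) ((ctr n Q) i) ≤ dist y (ctr n Q) := by
        rw [this]
        apply Real.le_sqrt_of_sq_le
        exact Finset.single_le_sum (f := fun i => dist (y i) ((ctr n Q) i) ^ 2)
          (fun _ _ => sq_nonneg _) (Finset.mem_univ i)
      rw [← Real.dist_eq]
      exact h2.trans (hd Q hQ)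
    have hc : (2 : ℝ) ^ k * (ctr n Q) i = (Q.2 i : ℝ) + 1 / 2 := by
      show (2 : ℝ) ^ k * (((Q.2 i : ℝ) + 1 / 2) / (2 : ℝ) ^ Q.1) = _
      rw [hk Q hQ]
      field_simp
    have hp : (0 : ℝ) < (2 : ℝ) ^ k := by positivity
    have h3 := abs_le.1 h1
    have h4 : (2 : ℝ) ^ k * (y i - (ctr n Q) i) ≤ R := by
      rw [hR]; exact mul_le_mul_of_nonneg_left h3.2 hp.le
    have h5 : -R ≤ (2 : ℝ) ^ k * (y i - (ctr n Q) i) := by
      have := mul_le_mul_of_nonneg_left h3.1 hp.le
      rw [hR]; linarith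
    rw [mul_sub, hc] at h4 h5
    rw [Finset.mem_Icc]
    constructor
    · rw [Int.ceil_le]; linarith
    · rw [Int.le_floor]; linarith
  have hinj : Set.InjOn (fun Q : Idx n => Q.2) (G : Set (Idx n)) := by
    intro Q hQ Q' hQ' h
    exact Prod.ext ((hk Q hQ).trans (hk Q' hQ').symm) h
  have hcard : G.card ≤ S.card := Finset.card_le_card_of_injOn _ hmap hinj
  have hS : (S.card : ℝ) ≤ (3 * R) ^ n := by
    rw [Fintype.card_piFinset]
    push_cast
    calc ∏ i : Fin n, ((Finset.Icc ⌈(2 : ℝ) ^ k * y i - 1 / 2 - R⌉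
          ⌊(2 : ℝ) ^ k * y i - 1 / 2 + R⌋).card : ℝ) ≤ ∏ _i : Fin n, (3 * R) := by
          apply Finset.prod_le_prod
          · intro i _; positivity
          · intro i _
            rw [Int.card_Icc]
            have h1 := Int.floor_le ((2 : ℝ) ^ k * y i - 1 / 2 + R)
            have h2 := Int.le_ceil ((2 : ℝ) ^ k * y i - 1 / 2 - R)
            rcases le_total 0 (⌊(2 : ℝ) ^ k * y i - 1 / 2 + R⌋ + 1 -
              ⌈(2 : ℝ) ^ k * y i - 1 / 2 - R⌉) with h | h
            · have h3 : (((⌊(2 : ℝ) ^ k * y i - 1 / 2 + R⌋ + 1 -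
                ⌈(2 : ℝ) ^ k * y i - 1 / 2 - R⌉).toNat : ℤ) : ℝ) =
                ((⌊(2 : ℝ) ^ k * y i - 1 / 2 + R⌋ + 1 -
                ⌈(2 : ℝ) ^ k * y i - 1 / 2 - R⌉ : ℤ) : ℝ) := by
                rw [Int.toNat_of_nonneg h]
              rw [Int.cast_natCast] at h3
              rw [h3]
              push_cast
              linarith
            · rw [Int.toNat_of_nonpos h]
              simp only [Nat.cast_zero]
              linarith
      _ = (3 * R) ^ n := by simp
  exact (by exact_mod_cast hcard : (G.card : ℝ) ≤ S.card).trans hS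

theorem ovl : S_OVL := by
  classical
  intro n
  refine ⟨3 ^ n + n + 1, by positivity, ?_⟩
  intro G P k r μ _ hr hPk
  have hB0 : (0 : ℝ) ≤ (n : ℝ) := by positivity
  have h3 : (0 : ℝ) ≤ (3 : ℝ) ^ n := by positivity
  have hp : (0 : ℝ) < (2 : ℝ) ^ k := by positivity
  have hR : 1 ≤ (2 : ℝ) ^ k * r := by
    have := mul_le_mul_of_nonneg_left hr hp.le
    rw [← mul_pow] at this
    norm_num at this
    exact this
  set F := G.filter (fun Q => Q.1 = k ∧ cube n Q ⊆ cube n P) with hF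
  set D := Metric.closedBall (ctr n P) (((3 : ℝ) ^ n + n + 1) * (1 / 2) ^ P.1 + r) with hD
  have hsub : ∀ Q ∈ F, Metric.closedBall (ctr n Q) r ⊆ D := by
    intro Q hQ
    have hQ' := (Finset.mem_filter.1 hQ).2.2
    apply Metric.closedBall_subset_closedBall'
    have h1 := dist_cube n P _ _ (hQ' (ctr_mem n Q)) (ctr_mem n P)
    have h2 : (0 : ℝ) ≤ (1 / 2 : ℝ) ^ P.1 := by positivity
    nlinarith
  have hpt : ∀ y, ∑ Q ∈ F, (Metric.closedBall (ctr n Q) r).indicator (fun _ => (1 : ℝ)) y ≤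
      (3 * ((2 : ℝ) ^ k * r)) ^ n * D.indicator (fun _ => (1 : ℝ)) y := by
    intro y
    have e1 : ∑ Q ∈ F, (Metric.closedBall (ctr n Q) r).indicator (fun _ => (1 : ℝ)) y =
        ((F.filter (fun Q => y ∈ Metric.closedBall (ctr n Q) r)).card : ℝ) := by
      rw [Finset.card_filter]
      push_cast
      apply Finset.sum_congr rfl
      intro Q _
      rw [Set.indicator_apply]
    rw [e1]
    by_cases hy : y ∈ D
    · rw [Set.indicator_of_mem hy, mul_one]
      apply count n _ k r y _ _ hR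
      · intro Q hQ
        exact (Finset.mem_filter.1 (Finset.mem_filter.1 hQ).1).2.1
      · intro Q hQ
        exact Metric.mem_closedBall.1 (Finset.mem_filter.1 hQ).2
    · rw [Set.indicator_of_notMem hy, mul_zero]
      have : F.filter (fun Q => y ∈ Metric.closedBall (ctr n Q) r) = ∅ := by
        apply Finset.filter_eq_empty_iff.2
        intro Q hQ hyQ
        exact hy (hsub Q hQ hyQ)
      rw [this]; simp
  have hint : ∀ S : Set (E n), MeasurableSet S →
      Integrable (S.indicator (fun _ => (1 : ℝ))) μ := by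
    intro S hS
    exact (integrable_const (1 : ℝ)).indicator hS
  have hval : ∀ S : Set (E n), MeasurableSet S →
      ∫ y, S.indicator (fun _ => (1 : ℝ)) y ∂μ = μ.real S := by
    intro S hS
    rw [integral_indicator hS]
    simp
  calc ∑ Q ∈ F, μ.real (Metric.closedBall (ctr n Q) r)
      = ∫ y, ∑ Q ∈ F, (Metric.closedBall (ctr n Q) r).indicator (fun _ => (1 : ℝ)) y ∂μ := by
        rw [integral_finset_sum]
        · apply Finset.sum_congr rfl
          intro Q _
          rw [hval _ Metric.isClosed_closedBall.measurableSet]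
        · intro Q _
          exact hint _ Metric.isClosed_closedBall.measurableSet
    _ ≤ ∫ y, (3 * ((2 : ℝ) ^ k * r)) ^ n * D.indicator (fun _ => (1 : ℝ)) y ∂μ := by
        apply integral_mono
        · apply integrable_finset_sum
          intro Q _
          exact hint _ Metric.isClosed_closedBall.measurableSet
        · exact (hint _ Metric.isClosed_closedBall.measurableSet).const_mul _
        · exact hpt
    _ = (3 * ((2 : ℝ) ^ k * r)) ^ n * μ.real D := by
        rw [integral_const_mul, hval _ Metric.isClosed_closedBall.measurableSet]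
    _ ≤ (3 ^ n + n + 1) * ((2 : ℝ) ^ k * r) ^ n * μ.real D := by
        apply mul_le_mul_of_nonneg_right _ measureReal_nonneg
        rw [mul_pow]
        apply mul_le_mul_of_nonneg_right _ (by positivity)
        linarith

end

end Pool.Agent.W904.BHO
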